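import Mathlib
import Pool.Agent.H668R3.LLM.Defs
import Pool.Agent.H668R3.LLM.Final

/-!
# Local left multipliers on tensor algebras of C*-correspondences

For every C*-correspondence, every approximately local left multiplier (in particular every local
left multiplier) of its tensor algebra is a left multiplier.

Idea of the proof. Let `S` be approximately local. A zero product argument (partitions of unity in
the coefficient algebra) gives `S(a d) = S(a) d` for `d` in the image of `A`, and a perturbation
argument gives for `v(ξ) = S(aξ) - S(a)ξ` the identities `v(dξ) = v(ξ)d = v(ξd)`. Moreover `v(ξ)`
is a norm limit of elements `cξ - μc`, for every complex `μ`. If `v` were not zero, its lowest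
nonzero Fourier coefficient would produce a character of the coefficient algebra at which the
correspondence has a loop, that is, a vector `ζ` in `X` with `χ⟨ζ, dζ⟩ = χ(d) χ⟨ζ, ζ⟩`, and hence for
small `μ` a bounded functional which vanishes on all `cζ - μc` (up to low order terms) but not on
`v(ζ)`.
-/

set_option autoImplicit false

open Filter Topology

namespace Pool.Agent.Results.MP_4840d7_an.LocalMultipliers

open Pool.Agent.H668R3.LLM

universe u v w

/-- For every C*-correspondence `E` and every universal Toeplitz representation `R` of it, every
bounded linear map `S` on the tensor algebra which is an approximately local left multiplier, or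
a local left multiplier, is a left multiplier. -/
theorem result {A : Type v} {X : Type w} {T : Type u} [NonUnitalCStarAlgebra A]
    [NormedAddCommGroup X] [NormedSpace ℂ X] [CompleteSpace X] [NonUnitalCStarAlgebra T]
    (E : Corr A X) (R : ToeplitzRep E T) (hR : IsUniversal R)
    (S : tensorAlg R →L[ℂ] tensorAlg R)
    (hS : IsApproxLocalLeftMultiplier S ∨ IsLocalLeftMultiplier S) : IsLeftMultiplier S := by
  rcases hS with hS | hS
  · exact approx_main R hR S hS
  · refine approx_main R hR S fun a => ?_
    obtain ⟨x, hx⟩ := hS a
    exact ⟨fun _ => x, by rw [hx]; exact tendsto_const_nhds⟩

end Pool.Agent.Results.MP_4840d7_an.LocalMultipliers
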